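import Pool.Agent.TH304.MI.Stm

/-!
# Project MI: `x`-fields on the body bound the weighted perimeter of the base
-/

set_option autoImplicit false

open MeasureTheory Set Metric Filter Topology
open scoped ENNReal Real

noncomputable section

namespace Pool.Agent.TH959.MI

open Pool.Agent.TH304.MI

/-! ### Coordinates -/

/-- The linear splitting of the coordinates. -/
def T (b : ℕ) : PP b →L[ℝ] ℂ × (Fin b → ℝ) :=
  LinearMap.toContinuousLinearMap
    { toFun := fun p => (xc p, yc p)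
      map_add' := fun p q => by
        refine Prod.ext ?_ ?_
        · apply Complex.ext <;> simp [xc]
        · funext i
          simp [yc]
      map_smul' := fun r p => by
        refine Prod.ext ?_ ?_
        · apply Complex.ext <;> simp [xc]
        · funext i
          simp [yc] }

theorem T_apply {b : ℕ} (p : PP b) : T b p = (xc p, yc p) := rfl

/-- The inclusion of the plane. -/
def J (b : ℕ) : ℂ →L[ℝ] PP b :=
  LinearMap.toContinuousLinearMap
    { toFun := fun z => WithLp.toLp 2 (Fin.cons z.re (Fin.cons z.im 0) : Fin (b + 2) → ℝ)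
      map_add' := fun p q => by
        ext i
        refine Fin.cases ?_ (fun j => ?_) i
        · simp
        · refine Fin.cases ?_ (fun k => ?_) j <;> simp
      map_smul' := fun r p => by
        ext i
        refine Fin.cases ?_ (fun j => ?_) i
        · simp
        · refine Fin.cases ?_ (fun k => ?_) j <;> simp }

theorem J_zero {b : ℕ} (z : ℂ) : (J b z) 0 = z.re := rfl

theorem J_one {b : ℕ} (z : ℂ) : (J b z) 1 = z.im := rfl

theorem J_succ {b : ℕ} (z : ℂ) (i : Fin b) : (J b z) i.succ.succ = 0 := rfl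

theorem norm_J {b : ℕ} (z : ℂ) : ‖J b z‖ = ‖z‖ := by
  rw [EuclideanSpace.norm_eq, Fin.sum_univ_succ, Fin.sum_univ_succ]
  have h : ∀ i : Fin b, ‖(J b z) i.succ.succ‖ ^ 2 = 0 := fun i => by rw [J_succ]; simp
  rw [Finset.sum_congr rfl (fun i _ => h i), Finset.sum_const_zero, add_zero, J_zero,
    show (Fin.succ (0 : Fin (b + 1))) = 1 from rfl, J_one, Complex.norm_def, Complex.normSq_apply]
  simp only [Real.norm_eq_abs, sq_abs]
  ring_nf

theorem T_single_zero {b : ℕ} : T b (EuclideanSpace.single 0 (1 : ℝ)) = (1, 0) := by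
  rw [T_apply]
  refine Prod.ext ?_ ?_
  · apply Complex.ext <;> simp [xc]
  · funext i
    simp [yc]

theorem T_single_one {b : ℕ} : T b (EuclideanSpace.single 1 (1 : ℝ)) = (Complex.I, 0) := by
  rw [T_apply]
  refine Prod.ext ?_ ?_
  · apply Complex.ext <;> simp [xc]
  · funext i
    have : (i.succ.succ : Fin (b + 2)) ≠ 1 := by
      intro h
      have := congrArg Fin.val h
      simp at this
    simp [yc, this]

/-- `(L 1).re + (L I).im` -/
def Lam : (ℂ →L[ℝ] ℂ) →L[ℝ] ℝ :=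
  Complex.reCLM.comp (ContinuousLinearMap.apply ℝ ℂ (1 : ℂ)) +
    Complex.imCLM.comp (ContinuousLinearMap.apply ℝ ℂ Complex.I)

theorem Lam_apply (L : ℂ →L[ℝ] ℂ) : Lam L = (L 1).re + (L Complex.I).im := rfl

/-- the `x`-derivative -/
def G1 {b : ℕ} (F : ℂ × (Fin b → ℝ) → ℂ) (q : ℂ × (Fin b → ℝ)) : ℂ →L[ℝ] ℂ :=
  (fderiv ℝ F q).comp (ContinuousLinearMap.inl ℝ ℂ (Fin b → ℝ))

theorem dv_eq {b : ℕ} {F : ℂ × (Fin b → ℝ) → ℂ} (hF : Differentiable ℝ F) (p : PP b) :
    dv (fun p => J b (F (T b p))) p = Lam (G1 F (T b p)) := by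
  have h1 : HasFDerivAt (fun p => J b (F (T b p)))
      ((J b).comp ((fderiv ℝ F (T b p)).comp (T b))) p :=
    (J b).hasFDerivAt.comp p ((hF _).hasFDerivAt.comp p (T b).hasFDerivAt)
  rw [dv, h1.fderiv, LinearMap.trace_eq_sum_inner _ (EuclideanSpace.basisFun (Fin (b + 2)) ℝ),
    Fin.sum_univ_succ, Fin.sum_univ_succ]
  have h2 : ∀ i : Fin b, inner ℝ (EuclideanSpace.basisFun (Fin (b + 2)) ℝ i.succ.succ)
      (((J b).comp ((fderiv ℝ F (T b p)).comp (T b))).toLinearMap
        (EuclideanSpace.basisFun (Fin (b + 2)) ℝ i.succ.succ)) = 0 := by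
    intro i
    simp only [EuclideanSpace.basisFun_apply, ContinuousLinearMap.coe_coe,
      ContinuousLinearMap.comp_apply, EuclideanSpace.inner_single_left, J_succ, mul_zero]
  rw [Finset.sum_congr rfl (fun i _ => h2 i), Finset.sum_const_zero, add_zero]
  simp only [EuclideanSpace.basisFun_apply, ContinuousLinearMap.coe_coe,
      ContinuousLinearMap.comp_apply, EuclideanSpace.inner_single_left, Lam_apply, G1,
      ContinuousLinearMap.inl_apply]
  rw [show (Fin.succ (0 : Fin (b + 1))) = 1 from rfl, J_zero, J_one, T_single_zero, T_single_one]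
  simp

/-! ### Differentiation under the integral -/

section marg

variable {b : ℕ} {F : ℂ × (Fin b → ℝ) → ℂ}

theorem continuous_G1 (hF : ContDiff ℝ 1 F) : Continuous (G1 F) :=
  (hF.continuous_fderiv (by norm_num)).clm_comp continuous_const

theorem hcs_G1 (hc : HasCompactSupport F) : HasCompactSupport (G1 F) := by
  have := (hc.fderiv ℝ).comp_left (g := fun L : (ℂ × (Fin b → ℝ)) →L[ℝ] ℂ =>
    L.comp (ContinuousLinearMap.inl ℝ ℂ (Fin b → ℝ))) (by simp)
  exact this

theorem slice_hcs {E : Type*} [NormedAddCommGroup E] {g : ℂ × (Fin b → ℝ) → E}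
    (hc : HasCompactSupport g) (x : ℂ) : HasCompactSupport (fun y => g (x, y)) := by
  refine HasCompactSupport.intro (K := Prod.snd '' tsupport g) (hc.isCompact.image continuous_snd)
    fun y hy => ?_
  by_contra h
  exact hy ⟨(x, y), subset_tsupport _ h, rfl⟩

theorem hasFDerivAt_marg (hF : ContDiff ℝ 1 F) (hc : HasCompactSupport F) (x : ℂ) :
    HasFDerivAt (fun x => ∫ y, F (x, y)) (∫ y, G1 F (x, y)) x := by
  obtain ⟨M, hM⟩ := (continuous_G1 hF).bounded_above_of_compact_support (hcs_G1 hc)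
  have hK : IsCompact (Prod.snd '' tsupport (G1 F)) :=
    (hcs_G1 hc).isCompact.image continuous_snd
  refine hasFDerivAt_integral_of_dominated_of_fderiv_le (F := fun x y => F (x, y))
    (F' := fun x y => G1 F (x, y)) (s := univ)
    (bound := (Prod.snd '' tsupport (G1 F)).indicator fun _ => M) univ_mem ?_ ?_ ?_ ?_ ?_ ?_
  · exact Eventually.of_forall fun x =>
      (hF.continuous.comp (Continuous.prodMk_right x)).aestronglyMeasurable
  · exact (hF.continuous.comp (Continuous.prodMk_right x)).integrable_of_hasCompactSupport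
      (slice_hcs hc x)
  · exact ((continuous_G1 hF).comp (Continuous.prodMk_right x)).aestronglyMeasurable
  · refine ae_of_all _ fun y x _ => ?_
    by_cases hy : y ∈ Prod.snd '' tsupport (G1 F)
    · rw [indicator_of_mem hy]
      exact hM _
    · rw [indicator_of_notMem hy]
      have : G1 F (x, y) = 0 := by
        by_contra h
        exact hy ⟨(x, y), subset_tsupport _ h, rfl⟩
      rw [this, norm_zero]
  · exact (integrable_indicator_iff hK.measurableSet).2 (integrableOn_const hK.measure_lt_top.ne)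
  · refine ae_of_all _ fun y x _ => ?_
    exact (hF.differentiable (by norm_num) _).hasFDerivAt.comp x (hasFDerivAt_prodMk_left x y)

theorem integral_Lam (hF : ContDiff ℝ 1 F) (hc : HasCompactSupport F) (x : ℂ) :
    ∫ y, Lam (G1 F (x, y)) = Lam (fderiv ℝ (fun x => ∫ y, F (x, y)) x) := by
  rw [(hasFDerivAt_marg hF hc x).fderiv, ContinuousLinearMap.integral_comp_comm]
  exact ((continuous_G1 hF).comp (Continuous.prodMk_right x)).integrable_of_hasCompactSupport
      (slice_hcs (hcs_G1 hc) x)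

theorem integral_cyl (hfub : S_fub) (hF : ContDiff ℝ 1 F) (hc : HasCompactSupport F)
    (hs : tsupport (fun p => J b (F (T b p))) ⊆ Om b) {A : Set ℂ} (hA : MeasurableSet A) :
    ∫ p in cyl b A, dv (fun p => J b (F (T b p))) p =
      ∫ x in A, Lam (fderiv ℝ (fun x => ∫ y, F (x, y)) x) := by
  obtain ⟨e, he, hm⟩ := hfub b
  have hset : MeasurableSet (e ⁻¹' (A ×ˢ (univ : Set (Fin b → ℝ)))) :=
    e.measurable (hA.prod MeasurableSet.univ)
  have h1 : ∫ p in cyl b A, dv (fun p => J b (F (T b p))) p =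
      ∫ p in e ⁻¹' (A ×ˢ (univ : Set (Fin b → ℝ))), dv (fun p => J b (F (T b p))) p := by
    refine (setIntegral_eq_of_subset_of_forall_sdiff_eq_zero hset ?_ ?_).symm
    · rintro p ⟨_, hp⟩
      rw [mem_preimage, he]
      exact ⟨hp, mem_univ _⟩
    · rintro p ⟨h2, h3⟩
      rw [mem_preimage, he] at h2
      have h4 : p ∉ Om b := fun h => h3 ⟨h, h2.1⟩
      have h5 : p ∉ tsupport (fun p => J b (F (T b p))) := fun h => h4 (hs h)
      have h6 : fderiv ℝ (fun p => J b (F (T b p))) p = 0 := by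
        by_contra h
        exact h5 (support_fderiv_subset ℝ h)
      rw [dv, h6]
      simp
  have h2 : ∀ p, dv (fun p => J b (F (T b p))) p = (fun q => Lam (G1 F q)) (e p) := by
    intro p
    rw [dv_eq (hF.differentiable (by norm_num)), he, T_apply]
  simp_rw [h1, h2]
  rw [hm.setIntegral_preimage_emb e.measurableEmbedding (fun q => Lam (G1 F q)),
    Measure.volume_eq_prod, setIntegral_prod]
  · refine setIntegral_congr_fun hA fun x _ => ?_
    rw [Measure.restrict_univ, integral_Lam hF hc]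
  · refine Integrable.integrableOn ?_
    rw [← Measure.volume_eq_prod]
    refine Continuous.integrable_of_hasCompactSupport (Lam.continuous.comp (continuous_G1 hF)) ?_
    exact (hcs_G1 hc).comp_left (map_zero _)

end marg

/-! ### The field -/

section field

variable {b : ℕ} {η : ℝ → ℝ} {Z : ℂ → ℂ}

/-- the field -/
def Fd (b : ℕ) (η : ℝ → ℝ) (Z : ℂ → ℂ) (q : ℂ × (Fin b → ℝ)) : ℂ :=
  ((∏ i, η (q.2 i / (1 - ‖q.1‖))) / (1 - ‖q.1‖) ^ b) • Z q.1

theorem Fd_eq_zero {q : ℂ × (Fin b → ℝ)} (h : Z q.1 = 0) : Fd b η Z q = 0 := by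
  rw [Fd, h, smul_zero]

theorem tsupport_Fd : tsupport (Fd b η Z) ⊆ {q | q.1 ∈ tsupport Z} := by
  refine closure_minimal ?_ ((isClosed_tsupport Z).preimage continuous_fst)
  intro q hq
  refine subset_tsupport _ fun h => hq (Fd_eq_zero h)

theorem contDiff_Fd (hη : ContDiff ℝ 1 η) (hZ : Fl2 b (D1 \ {0}) Z) :
    ContDiff ℝ 1 (Fd b η Z) := by
  rw [contDiff_iff_contDiffAt]
  intro q
  by_cases hq : q ∈ tsupport (Fd b η Z)
  · obtain ⟨h1, h2⟩ := hZ.sub (tsupport_Fd hq)
    have h3 : ‖q.1‖ < 1 := by simpa [D1] using h1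
    have h4 : q.1 ≠ 0 := by simpa using h2
    have h5 : ContDiffAt ℝ 1 (fun q : ℂ × (Fin b → ℝ) => 1 - ‖q.1‖) q :=
      contDiffAt_const.sub (contDiffAt_fst.norm ℝ h4)
    have h6 : (1 - ‖q.1‖) ≠ 0 := by linarith
    unfold Fd
    refine ContDiffAt.smul (ContDiffAt.div ?_ (h5.pow b) (pow_ne_zero _ h6)) ?_
    · refine contDiffAt_prod fun i _ => ?_
      refine hη.contDiffAt.comp q (ContDiffAt.div ?_ h5 h6)
      exact ((contDiff_apply ℝ ℝ i).comp contDiff_snd).contDiffAt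
    · exact (hZ.cd.comp contDiff_fst).contDiffAt
  · rw [notMem_tsupport_iff_eventuallyEq] at hq
    exact (contDiffAt_const (c := (0 : ℂ))).congr_of_eventuallyEq hq

theorem Fd_support {ρ : ℝ} (hρ : ∀ t, ρ < |t| → η t = 0) (hZ : Fl2 b (D1 \ {0}) Z)
    {q : ℂ × (Fin b → ℝ)} (hq : Fd b η Z q ≠ 0) :
    q.1 ∈ tsupport Z ∧ ∀ i, |q.2 i| ≤ ρ * (1 - ‖q.1‖) := by
  have h1 : q.1 ∈ tsupport Z := subset_tsupport _ fun h => hq (Fd_eq_zero h)
  refine ⟨h1, fun i => ?_⟩
  have h2 : ‖q.1‖ < 1 := by simpa [D1] using (hZ.sub h1).1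
  by_contra h
  push Not at h
  apply hq
  have h3 : η (q.2 i / (1 - ‖q.1‖)) = 0 := by
    apply hρ
    rw [abs_div, abs_of_pos (by linarith : 0 < 1 - ‖q.1‖), lt_div_iff₀ (by linarith)]
    exact h
  rw [Fd, Finset.prod_eq_zero (Finset.mem_univ i) h3, zero_div, zero_smul]

theorem hcs_Fd {ρ : ℝ} (h0 : 0 ≤ ρ) (hρ : ∀ t, ρ < |t| → η t = 0) (hZ : Fl2 b (D1 \ {0}) Z) :
    HasCompactSupport (Fd b η Z) := by
  refine HasCompactSupport.intro (K := tsupport Z ×ˢ closedBall (0 : Fin b → ℝ) ρ)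
    (hZ.cs.isCompact.prod (isCompact_closedBall _ _)) fun q hq => ?_
  by_contra h
  obtain ⟨h1, h2⟩ := Fd_support hρ hZ h
  refine hq ⟨h1, ?_⟩
  rw [mem_closedBall_zero_iff, pi_norm_le_iff_of_nonneg h0]
  intro i
  rw [Real.norm_eq_abs]
  refine (h2 i).trans ?_
  have := norm_nonneg q.1
  nlinarith

theorem tsupport_field {ρ : ℝ} (hρ1 : ρ < 1) (hρ : ∀ t, ρ < |t| → η t = 0)
    (hZ : Fl2 b (D1 \ {0}) Z) : tsupport (fun p => J b (Fd b η Z (T b p))) ⊆ Om b := by
  have hcl : IsClosed {p : PP b | (T b p).1 ∈ tsupport Z ∧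
      ∀ i, |(T b p).2 i| ≤ ρ * (1 - ‖(T b p).1‖)} := by
    refine IsClosed.inter ((isClosed_tsupport Z).preimage (continuous_fst.comp (T b).continuous)) ?_
    have hi : {p : PP b | ∀ i, |(T b p).2 i| ≤ ρ * (1 - ‖(T b p).1‖)} =
        ⋂ i, {p : PP b | |(T b p).2 i| ≤ ρ * (1 - ‖(T b p).1‖)} := by
      ext p
      simp
    change IsClosed {p : PP b | ∀ i, |(T b p).2 i| ≤ ρ * (1 - ‖(T b p).1‖)}
    rw [hi]
    refine isClosed_iInter fun i => isClosed_le ?_ ?_
    · exact ((continuous_apply i).comp (continuous_snd.comp (T b).continuous)).abs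
    · exact continuous_const.mul (continuous_const.sub
        (continuous_fst.comp (T b).continuous).norm)
  refine (closure_minimal ?_ hcl).trans ?_
  · intro p hp
    refine Fd_support hρ hZ fun h => hp ?_
    dsimp only
    rw [h, map_zero]
  · rintro p ⟨h1, h2⟩
    rw [T_apply] at h1 h2
    dsimp only at h1 h2
    have h3 : ‖xc p‖ < 1 := by simpa [D1] using (hZ.sub h1).1
    refine ⟨h3, fun i => ?_⟩
    have := h2 i
    nlinarith

theorem norm_Fd_le (h0 : ∀ t, 0 ≤ η t) (h1 : ∀ t, η t ≤ 1) (hZ : Fl2 b (D1 \ {0}) Z)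
    (q : ℂ × (Fin b → ℝ)) : ‖Fd b η Z q‖ ≤ 1 := by
  by_cases hz : Z q.1 = 0
  · rw [Fd_eq_zero hz, norm_zero]
    exact zero_le_one
  · have h2 : ‖q.1‖ < 1 := by simpa [D1] using (hZ.sub (subset_tsupport _ hz)).1
    have h3 : 0 < (1 - ‖q.1‖) ^ b := pow_pos (by linarith) _
    have h4 : ∏ i, η (q.2 i / (1 - ‖q.1‖)) ≤ 1 := Finset.prod_le_one (fun _ _ => h0 _) fun _ _ => h1 _
    have h5 : 0 ≤ ∏ i, η (q.2 i / (1 - ‖q.1‖)) := Finset.prod_nonneg fun _ _ => h0 _
    rw [Fd, norm_smul, Real.norm_eq_abs, abs_of_nonneg (div_nonneg h5 h3.le), div_mul_eq_mul_div,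
      div_le_one h3]
    calc (∏ i, η (q.2 i / (1 - ‖q.1‖))) * ‖Z q.1‖ ≤ 1 * (1 - ‖q.1‖) ^ b :=
          mul_le_mul h4 (hZ.bd _ h2) (norm_nonneg _) zero_le_one
      _ = _ := one_mul _

theorem integral_Fd (hZ : Fl2 b (D1 \ {0}) Z) (x : ℂ) :
    ∫ y, Fd b η Z (x, y) = ((∫ t, η t) ^ b) • Z x := by
  by_cases hz : Z x = 0
  · simp [Fd, hz]
  · have h2 : ‖x‖ < 1 := by simpa [D1] using (hZ.sub (subset_tsupport _ hz)).1
    have h3 : 0 < 1 - ‖x‖ := by linarith
    simp only [Fd]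
    rw [integral_smul_const, integral_div,
      integral_fintype_prod_volume_eq_pow (fun t => η (t / (1 - ‖x‖))), Fintype.card_fin,
      Measure.integral_comp_div, abs_of_pos h3, smul_eq_mul, mul_pow, mul_div_assoc, mul_comm,
      div_mul_cancel₀ _ (pow_pos h3 _).ne']

end field

theorem Lam_fderiv {c : ℝ} {Z : ℂ → ℂ} (hZ : ContDiff ℝ 1 Z) (x : ℂ) :
    Lam (fderiv ℝ (fun x => c • Z x) x) = c * dv2 Z x := by
  rw [fderiv_fun_const_smul (hZ.differentiable (by norm_num) x), map_smul, Lam_apply, dv2, smul_eq_mul]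

theorem sc_one {b : ℕ} (p : PP b) : sc 1 p = p := by
  ext i
  simp [sc]

/-- The bound for one cut-off function. -/
theorem low_aux (hfub : S_fub) {b : ℕ} {A : Set ℂ} (hA : MeasurableSet A) {C : ℝ}
    (h : ∀ φ : PP b → PP b, Fld 1 (Om b) φ → (∀ p, yc (φ p) = 0) →
      ∫ x in cyl b A, dv φ x ≤ 2 ^ b * C) {Z : ℂ → ℂ} (hZ : Fl2 b (D1 \ {0}) Z)
    {η : ℝ → ℝ} {ρ : ℝ} (hη : ContDiff ℝ 1 η) (h0 : ∀ t, 0 ≤ η t) (h1 : ∀ t, η t ≤ 1)
    (hρ0 : 0 ≤ ρ) (hρ1 : ρ < 1) (hρ : ∀ t, ρ < |t| → η t = 0) :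
    (∫ t, η t) ^ b * ∫ z in A, dv2 Z z ≤ 2 ^ b * C := by
  have hF := contDiff_Fd hη hZ
  have hc := hcs_Fd hρ0 hρ hZ
  have hs := tsupport_field hρ1 hρ hZ
  have h2 := h (fun p => J b (Fd b η Z (T b p))) ⟨?_, ?_, hs, ?_⟩ ?_
  · rw [integral_cyl hfub hF hc hs hA] at h2
    have h3 : (fun x => ∫ y, Fd b η Z (x, y)) = fun x => ((∫ t, η t) ^ b) • Z x :=
      funext fun x => integral_Fd hZ x
    rw [h3] at h2
    simp_rw [Lam_fderiv hZ.cd] at h2
    rwa [integral_const_mul] at h2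
  · exact (J b).contDiff.comp (hF.comp (T b).contDiff)
  · refine HasCompactSupport.comp_left (g := J b) (f := fun p => Fd b η Z (T b p)) ?_ (map_zero _)
    obtain ⟨e, he, -⟩ := hfub b
    refine hc.comp_isClosedEmbedding (g := T b) ?_
    refine (LinearMap.isClosedEmbedding_of_injective (f := (T b).toLinearMap) ?_)
    rw [LinearMap.ker_eq_bot]
    intro p q hpq
    have : e p = e q := by rw [he, he]; exact hpq
    exact e.injective this
  · intro p
    rw [sc_one, norm_J]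
    exact norm_Fd_le h0 h1 hZ _
  · intro p
    funext i
    exact J_succ _ i

/-- a cut-off function with integral close to `2` -/
theorem exists_cutoff {δ : ℝ} (h0 : 0 < δ) (h1 : δ < 1) : ∃ η : ℝ → ℝ, ContDiff ℝ 1 η ∧
    (∀ t, 0 ≤ η t) ∧ (∀ t, η t ≤ 1) ∧ (∀ t, 1 - δ / 2 < |t| → η t = 0) ∧
    2 - 2 * δ ≤ ∫ t, η t ∧ ∫ t, η t ≤ 2 := by
  let f : ContDiffBump (0 : ℝ) := ⟨1 - δ, 1 - δ / 2, by linarith, by linarith⟩
  have hi : Integrable (f : ℝ → ℝ) := f.continuous.integrable_of_hasCompactSupport f.hasCompactSupport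
  have hz : ∀ t, 1 - δ / 2 < |t| → f t = 0 := by
    intro t ht
    apply f.zero_of_le_dist
    rw [Real.dist_eq, sub_zero]
    exact ht.le
  refine ⟨f, f.contDiff, fun t => f.nonneg, fun t => f.le_one, hz, ?_, ?_⟩
  · have h2 : ∫ t in Icc (-(1 - δ)) (1 - δ), (1 : ℝ) ≤ ∫ t in Icc (-(1 - δ)) (1 - δ), f t := by
      refine setIntegral_mono_on (by simp) hi.integrableOn measurableSet_Icc fun t ht => ?_
      rw [f.one_of_mem_closedBall]
      rw [mem_closedBall, Real.dist_eq, sub_zero]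
      exact abs_le.2 ht
    have h3 : ∫ t in Icc (-(1 - δ)) (1 - δ), f t ≤ ∫ t, f t :=
      setIntegral_le_integral hi (ae_of_all _ fun t => f.nonneg)
    have h4 : ∫ t in Icc (-(1 - δ)) (1 - δ), (1 : ℝ) = 2 - 2 * δ := by
      rw [setIntegral_const, smul_eq_mul, mul_one, Real.volume_real_Icc_of_le (by linarith)]
      ring
    linarith
  · have h2 : ∫ t, f t = ∫ t in Icc (-1 : ℝ) 1, f t := by
      refine (setIntegral_eq_integral_of_forall_compl_eq_zero fun t ht => ?_).symm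
      apply hz
      by_contra h
      push Not at h
      exact ht (abs_le.1 (h.trans (by linarith)))
    have h3 : ∫ t in Icc (-1 : ℝ) 1, f t ≤ ∫ t in Icc (-1 : ℝ) 1, (1 : ℝ) :=
      setIntegral_mono_on hi.integrableOn (by simp) measurableSet_Icc fun t _ => f.le_one
    have h4 : ∫ t in Icc (-1 : ℝ) 1, (1 : ℝ) = 2 := by
      rw [setIntegral_const, smul_eq_mul, mul_one, Real.volume_real_Icc_of_le (by norm_num)]
      norm_num
    linarith

theorem t_low (hfub : S_fub) : S_low := by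
  intro b A hA _ C h Z hZ
  have key : ∀ n : ℕ, ∃ a : ℝ, 2 - 2 * (1 / ((n : ℝ) + 2)) ≤ a ∧ a ≤ 2 ∧
      a ^ b * ∫ z in A, dv2 Z z ≤ 2 ^ b * C := by
    intro n
    have hn : (0 : ℝ) < (n : ℝ) + 2 := by positivity
    have hn1 : 1 / ((n : ℝ) + 2) < 1 := by
      rw [div_lt_one hn]
      have : (0 : ℝ) ≤ n := Nat.cast_nonneg n
      linarith
    obtain ⟨η, h1, h2, h3, h4, h5, h6⟩ := exists_cutoff (δ := 1 / ((n : ℝ) + 2)) (by positivity) hn1
    have h7 : 0 < 1 / ((n : ℝ) + 2) := by positivity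
    exact ⟨_, h5, h6, low_aux hfub hA h hZ h1 h2 h3 (by linarith) (by linarith) h4⟩
  choose a ha1 ha2 ha3 using key
  have hlim : Tendsto (fun n : ℕ => 2 - 2 * (1 / ((n : ℝ) + 2))) atTop (𝓝 2) := by
    have h1 : Tendsto (fun n : ℕ => 1 / ((n : ℝ) + 2)) atTop (𝓝 0) := by
      refine Tendsto.div_atTop tendsto_const_nhds ?_
      exact tendsto_atTop_add_const_right _ _ tendsto_natCast_atTop_atTop
    simpa using (tendsto_const_nhds (x := (2 : ℝ))).sub ((tendsto_const_nhds (x := (2 : ℝ))).mul h1)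
  have ha : Tendsto a atTop (𝓝 2) := tendsto_of_tendsto_of_tendsto_of_le_of_le hlim
    tendsto_const_nhds ha1 ha2
  have h1 : (2 : ℝ) ^ b * ∫ z in A, dv2 Z z ≤ 2 ^ b * C :=
    le_of_tendsto ((ha.pow b).mul_const _) (Eventually.of_forall ha3)
  exact le_of_mul_le_mul_left h1 (by positivity)

end Pool.Agent.TH959.MI
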